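import Pool.Agent.helper44.AU.IIT

/-!
# AU, II2: a nontrivial normal subgroup of `Gam` inside `L` has even order
-/

set_option linter.unusedVariables false

namespace Pool.Agent.helper75.AU

open scoped Classical
open Pool.Agent.helper53.AU MulAction

theorem II2 (hLO : LO_stmt) (hII1 : II1_stmt) : II2_stmt := by
  intro Gam Om _ _ L c h E hE hEL hne
  by_contra hodd
  have := h.finG
  have := h.finO
  have := h.faithful
  apply hne
  set n := Nat.card Om with hn
  have hcn : Nat.card (Subgroup.zpowers c) = n := IIT_card_c h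
  let X : Subgroup Gam := E ⊔ Subgroup.zpowers c
  have hcX : Subgroup.zpowers c ≤ X := le_sup_right
  have hEX : E ≤ X := le_sup_left
  have hXL : X ≤ L := sup_le hEL ((Subgroup.zpowers_le).2 h.mem)
  let A : Subgroup X := (Subgroup.zpowers c).subgroupOf X
  obtain ⟨w0⟩ : Nonempty Om := by
    have := h.one
    by_contra hne
    rw [not_nonempty_iff] at hne
    simp at this
  -- order of X
  have hX1 : Nat.card E * E.relIndex X = Nat.card X := IIT_card_rel hEX
  have hX2 : E.relIndex X = E.relIndex (Subgroup.zpowers c) := Subgroup.relIndex_sup_left _ _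
  have hXodd : ¬ 2 ∣ Nat.card X := by
    rw [← hX1, Nat.prime_two.dvd_mul, hX2]
    rintro (h1 | h1)
    · exact hodd h1
    · have h2 : E.relIndex (Subgroup.zpowers c) ∣ Nat.card (Subgroup.zpowers c) :=
        Subgroup.relIndex_dvd_card _ _
      rw [hcn] at h2
      exact h.odd (h1.trans h2)
  -- order of A
  have hAn : Nat.card A = n := by
    rw [← hcn]
    exact Nat.card_congr (Subgroup.subgroupOfEquivOfLe hcX).toEquiv
  -- the stabilisers
  have hst : ∀ w : Om, Nat.Coprime (Nat.card (stabilizer X w)) (Nat.card A) := by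
    intro w
    rw [hAn]
    have h1 : Nat.card (stabilizer X w) ∣ Nat.card (L ⊓ stabilizer Gam w : Subgroup Gam) := by
      have h2 : Nat.card ((stabilizer X w).map X.subtype) = Nat.card (stabilizer X w) :=
        (Nat.card_congr ((stabilizer X w).equivMapOfInjective _ X.subtype_injective).toEquiv).symm
      rw [← h2]
      apply Subgroup.card_dvd_of_le
      rintro _ ⟨⟨x, hx⟩, hxs, rfl⟩
      exact ⟨hXL hx, hxs⟩
    exact Nat.Coprime.coprime_dvd_left h1 (h.copr w)
  have hfX : FaithfulSMul X Om := ⟨fun {a b} hab => Subtype.ext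
    (FaithfulSMul.eq_of_smul_eq_smul (α := Om) fun w => hab w)⟩
  obtain ⟨hAnorm, -⟩ := hLO X Om A hXodd
    (by
      have : IsCyclic (Subgroup.zpowers c) := inferInstance
      exact isCyclic_of_surjective (Subgroup.subgroupOfEquivOfLe hcX).symm
        (Subgroup.subgroupOfEquivOfLe hcX).symm.surjective)
    (by
      rintro ⟨a, haX⟩ ha w hw
      exact Subtype.ext (IIT_reg h (Subgroup.mem_subgroupOf.1 ha) hw))
    (by
      intro v w
      obtain ⟨a, ha, haw⟩ := IIT_trans h w (v • w)
      exact ⟨⟨a, hcX ha⟩, Subgroup.mem_subgroupOf.2 ha, haw⟩)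
    hst
  -- index of A
  have hpre : IsPretransitive X Om := ⟨fun a b => by
    obtain ⟨v, hv, hvw⟩ := IIT_trans h a b
    exact ⟨⟨v, hcX hv⟩, hvw⟩⟩
  have hidx : A.index = Nat.card (stabilizer X w0) := by
    have h1 : A.index * Nat.card A = Nat.card X := Subgroup.index_mul_card A
    have h2 : (stabilizer X w0).index * Nat.card (stabilizer X w0) = Nat.card X :=
      Subgroup.index_mul_card _
    rw [index_stabilizer_of_transitive] at h2
    rw [hAn, ← h2, ← hn, mul_comm] at h1
    have hnpos : 0 < n := by have := h.one; omega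
    exact Nat.eq_of_mul_eq_mul_left hnpos h1
  have hidxc : Nat.Coprime A.index n := by
    rw [hidx, ← hAn]; exact hst w0
  have hmem : ∀ v ∈ X, v ^ n = 1 → v ∈ Subgroup.zpowers c := by
    intro v hv hvn
    have h1 : (⟨v, hv⟩ : X) ^ A.index ∈ A := Subgroup.pow_index_mem A _
    have h2 : (⟨v, hv⟩ : X) ^ n ∈ A := by
      have : (⟨v, hv⟩ : X) ^ n = 1 := Subtype.ext hvn
      rw [this]; exact A.one_mem
    exact Subgroup.mem_subgroupOf.1 (IIT_coprime_mem hidxc h1 h2)
  -- E ⊓ ⟨c⟩ is normal in Gam
  have hZ : E ⊓ Subgroup.zpowers c = ⊥ := by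
    refine hII1 Gam Om L c h _ inf_le_right ⟨?_⟩
    rintro z ⟨hz1, hz2⟩ g
    have h1 : g * z * g⁻¹ ∈ E := hE.conj_mem z hz1 g
    have hz3 : z ^ n = 1 := by
      obtain ⟨m, rfl⟩ := Subgroup.mem_zpowers_iff.1 hz2
      rw [Nat.card_zpowers] at hcn
      rw [← zpow_natCast, ← zpow_mul, mul_comm, zpow_mul, zpow_natCast, ← hcn, pow_orderOf_eq_one,
        one_zpow]
    refine ⟨h1, hmem _ (hEX h1) ?_⟩
    rw [conj_pow, hz3, mul_one, mul_inv_cancel]
  -- order of E
  have hEc : Nat.Coprime (Nat.card E) n := by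
    have h1 : E.relIndex (Subgroup.zpowers c) = n := by
      rw [← Subgroup.inf_relIndex_right, hZ, Subgroup.relIndex_bot_left, hcn]
    rw [hX2, h1] at hX1
    have h2 : A.index * Nat.card A = Nat.card X := Subgroup.index_mul_card A
    rw [hAn, ← hX1] at h2
    have hnpos : 0 < n := by have := h.one; omega
    have h3 : A.index = Nat.card E := Nat.eq_of_mul_eq_mul_right hnpos h2
    rwa [← h3]
  exact IIT_coprime_bot h E hE hEc

end Pool.Agent.helper75.AU
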