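import Pool.Agent.helper44.AU.IIT

/-!
# AU, II5: `E = L`
-/

set_option linter.unusedVariables false

namespace Pool.Agent.helper75.AU

open scoped Classical
open scoped commutatorElement
open Pool.Agent.helper53.AU MulAction

theorem II5_cent {Gam Om : Type} [Group Gam] [MulAction Gam Om] {L : Subgroup Gam} {c : Gam}
    (h : CtxII Gam Om L c) {u : Gam} (hu : u * c = c * u) : u ∈ Subgroup.zpowers c := by
  have := h.faithful
  obtain ⟨w0⟩ : Nonempty Om := by
    have := h.one
    by_contra hne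
    rw [not_nonempty_iff] at hne
    simp at this
  obtain ⟨m, hm⟩ := h.tr w0 (u • w0)
  have hcomm : Commute u c := hu
  have h1 : u = c ^ m := by
    apply FaithfulSMul.eq_of_smul_eq_smul (α := Om)
    intro w
    obtain ⟨t, ht⟩ := h.tr w0 w
    rw [← ht, ← mul_smul, (hcomm.pow_right t).eq, mul_smul, ← hm, ← mul_smul, ← mul_smul,
      ← pow_add, ← pow_add, add_comm]
  rw [h1]
  exact Subgroup.npow_mem_zpowers c m

theorem II5 (hII4 : II4_stmt) (hFH : FH_stmt) : II5_stmt := by
  intro Gam Om _ _ L c h E hE hEL hne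
  have := h.finG
  have := h.finO
  have := h.faithful
  set n := Nat.card Om with hn
  have hcn : Nat.card (Subgroup.zpowers c) = n := IIT_card_c h
  obtain ⟨w0⟩ : Nonempty Om := by
    have := h.one
    by_contra hne
    rw [not_nonempty_iff] at hne
    simp at this
  have hnpos : 0 < n := by have := h.one; omega
  -- orders via the stabilisers
  have hcard : ∀ K : Subgroup Gam, (∀ a b : Om, ∃ v ∈ K, v • a = b) →
      Nat.card K = n * Nat.card (K ⊓ stabilizer Gam w0 : Subgroup Gam) := by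
    intro K hK
    have hpre : IsPretransitive K Om := ⟨fun a b => by
      obtain ⟨v, hv, hvw⟩ := hK a b
      exact ⟨⟨v, hv⟩, hvw⟩⟩
    have h2 : (stabilizer K w0).index * Nat.card (stabilizer K w0) = Nat.card K :=
      Subgroup.index_mul_card _
    rw [index_stabilizer_of_transitive] at h2
    rw [← h2]
    congr 1
    have h3 : (stabilizer K w0).map K.subtype = K ⊓ stabilizer Gam w0 := by
      ext x
      constructor
      · rintro ⟨⟨x, hx⟩, hxs, rfl⟩
        exact ⟨hx, hxs⟩
      · rintro ⟨hx, hxs⟩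
        exact ⟨⟨x, hx⟩, hxs, rfl⟩
    rw [← h3]
    exact Nat.card_congr ((stabilizer K w0).equivMapOfInjective _ K.subtype_injective).toEquiv
  have hE4 := hII4 Gam Om L c h E hE hEL hne
  have hcE := hcard E hE4
  have hcL := hcard L (fun a b => by
    obtain ⟨v, hv, hvw⟩ := IIT_trans h a b
    exact ⟨v, (Subgroup.zpowers_le.2 h.mem) hv, hvw⟩)
  have hdvd : Nat.card (E ⊓ stabilizer Gam w0 : Subgroup Gam) ∣
      Nat.card (L ⊓ stabilizer Gam w0 : Subgroup Gam) :=
    Subgroup.card_dvd_of_le (inf_le_inf_right _ hEL)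
  have hcopL := h.copr w0
  -- c ∈ E
  have hcE' : c ∈ E := by
    have h1 : Nat.card E * E.relIndex L = Nat.card L := IIT_card_rel hEL
    have h2 : Nat.card (E ⊓ stabilizer Gam w0 : Subgroup Gam) * E.relIndex L =
        Nat.card (L ⊓ stabilizer Gam w0 : Subgroup Gam) := by
      rw [hcE, hcL, mul_assoc] at h1
      exact Nat.eq_of_mul_eq_mul_left hnpos h1
    have h3 : Nat.Coprime (E.relIndex L) n :=
      Nat.Coprime.coprime_dvd_left ⟨_, by rw [← h2, mul_comm]⟩ hcopL
    have h4 : c ^ (E.relIndex L) ∈ E := by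
      have : (⟨c, h.mem⟩ : L) ^ (E.subgroupOf L).index ∈ E.subgroupOf L :=
        Subgroup.pow_index_mem _ _
      exact Subgroup.mem_subgroupOf.1 this
    have h5 : c ^ n ∈ E := by
      rw [← hcn, Nat.card_zpowers, pow_orderOf_eq_one]; exact E.one_mem
    exact IIT_coprime_mem h3 h4 h5
  have hAE : Subgroup.zpowers c ≤ E := Subgroup.zpowers_le.2 hcE'
  have hcop : Nat.Coprime (Nat.card (Subgroup.zpowers c)) ((Subgroup.zpowers c).relIndex E) := by
    have h1 : Nat.card (Subgroup.zpowers c) * (Subgroup.zpowers c).relIndex E = Nat.card E :=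
      IIT_card_rel hAE
    rw [hcn, hcE] at h1
    have h2 := Nat.eq_of_mul_eq_mul_left hnpos h1
    rw [hcn, h2]
    exact (Nat.Coprime.coprime_dvd_left hdvd hcopL).symm
  have hN := hFH Gam E (Subgroup.zpowers c) hE hAE inferInstance hcop
  apply le_antisymm hEL
  have key : ⁅(⊤ : Subgroup Gam), L⁆ ≤ E := by
    rw [Subgroup.commutator_le]
    intro w _ w' _
    obtain ⟨e, he, hn1⟩ := hN w⁻¹
    obtain ⟨e', he', hn2⟩ := hN w'⁻¹
    set n1 := e * w⁻¹ with hn1d
    set n2 := e' * w'⁻¹ with hn2d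
    clear_value n1 n2
    obtain ⟨i, hi⟩ := Subgroup.mem_zpowers_iff.1 (hn1 c (Subgroup.mem_zpowers c))
    obtain ⟨j, hj⟩ := Subgroup.mem_zpowers_iff.1 (hn2 c (Subgroup.mem_zpowers c))
    have k1 : (n1 * n2) * c * (n1 * n2)⁻¹ = c ^ (i * j) := by
      have : (n1 * n2) * c * (n1 * n2)⁻¹ = n1 * (n2 * c * n2⁻¹) * n1⁻¹ := by group
      rw [this, ← hj, ← conj_zpow, ← hi, ← zpow_mul]
    have k2 : (n2 * n1) * c * (n2 * n1)⁻¹ = c ^ (i * j) := by
      have : (n2 * n1) * c * (n2 * n1)⁻¹ = n2 * (n1 * c * n1⁻¹) * n2⁻¹ := by group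
      rw [this, ← hi, ← conj_zpow, ← hj, ← zpow_mul, mul_comm]
    have k3 : ((n2 * n1)⁻¹ * (n1 * n2)) * c = c * ((n2 * n1)⁻¹ * (n1 * n2)) := by
      have h1 : (n1 * n2) * c * (n1 * n2)⁻¹ = (n2 * n1) * c * (n2 * n1)⁻¹ := by rw [k1, k2]
      have h2 : (n1 * n2) * c = (n2 * n1) * c * (n2 * n1)⁻¹ * (n1 * n2) := by
        rw [← h1]; group
      rw [mul_assoc, h2]
      group
    have k4 : (n2 * n1)⁻¹ * (n1 * n2) ∈ E := hAE (II5_cent h k3)
    rw [← QuotientGroup.eq_one_iff] at k4 ⊢
    have q1 : (QuotientGroup.mk' E n1) = (QuotientGroup.mk' E w)⁻¹ := by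
      have : QuotientGroup.mk' E e = 1 := (QuotientGroup.eq_one_iff e).2 he
      rw [hn1d, map_mul, this, one_mul, map_inv]
    have q2 : (QuotientGroup.mk' E n2) = (QuotientGroup.mk' E w')⁻¹ := by
      have : QuotientGroup.mk' E e' = 1 := (QuotientGroup.eq_one_iff e').2 he'
      rw [hn2d, map_mul, this, one_mul, map_inv]
    have k5 : QuotientGroup.mk' E ((n2 * n1)⁻¹ * (n1 * n2)) = 1 := k4
    have k6 : QuotientGroup.mk' E ⁅w, w'⁆ = 1 := by
      rw [map_mul, map_inv, map_mul, map_mul, q1, q2] at k5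
      rw [commutatorElement_def, map_mul, map_mul, map_mul, map_inv, map_inv, ← k5]
      group
    exact k6
  rw [h.zp] at key
  exact key

end Pool.Agent.helper75.AU
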