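import Pool.Agent.helper44.AU.IIT

/-!
# AU, II6: `L` is primitive
-/

set_option linter.unusedVariables false

namespace Pool.Agent.helper75.AU

open scoped Classical
open Pool.Agent.helper53.AU MulAction

/-- two subgroups of the same order of a finite cyclic group are equal -/
theorem II6_uniq {C : Type} [Group C] [Finite C] [IsCyclic C] (D D' : Subgroup C)
    (h : Nat.card D = Nat.card D') : D = D' := by
  have key : ∀ D : Subgroup C, ∀ x : C, x ∈ D ↔ x ^ (Nat.card D) = 1 := by
    intro D x
    have : Fintype C := Fintype.ofFinite C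
    have h1 : (D : Set C) ⊆ {x : C | x ^ (Nat.card D) = 1} := by
      intro y hy
      have : (⟨y, hy⟩ : D) ^ Nat.card D = 1 := pow_card_eq_one'
      exact congrArg Subtype.val this
    have h2 := IsCyclic.card_pow_eq_one_le (α := C) (n := Nat.card D) Nat.card_pos
    have h3 : (D : Set C) = {x : C | x ^ (Nat.card D) = 1} := by
      apply Set.eq_of_subset_of_ncard_le h1
      · have e1 : (D : Set C).ncard = Nat.card D := rfl
        rw [e1]
        refine le_trans (le_of_eq ?_) h2
        rw [Set.ncard_eq_toFinset_card']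
        congr 1
        ext y
        simp
    exact Set.ext_iff.1 h3 x
  ext x
  rw [key D, key D', h]

section
variable {Gam Om : Type} [Group Gam] [MulAction Gam Om] {L : Subgroup Gam} {c : Gam}

/-- the subgroup of the elements of `⟨c⟩` preserving the classes of `r` -/
def II6_D (c : Gam) (r : Setoid Om)
    (hr : ∀ g ∈ L, ∀ a b : Om, r a b → r (g • a) (g • b)) (hc : c ∈ L) :
    Subgroup (Subgroup.zpowers c) where
  carrier := {v | ∀ a : Om, r ((v : Gam) • a) a}
  one_mem' := fun a => by simp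
  mul_mem' := by
    intro u v hu hv a
    have := hu ((v : Gam) • a)
    rw [← mul_smul] at this
    exact r.trans this (hv a)
  inv_mem' := by
    intro u hu a
    have := hu ((u : Gam)⁻¹ • a)
    rw [smul_inv_smul] at this
    exact r.symm this

theorem II6_card (h : CtxII Gam Om L c) (r : Setoid Om)
    (hr : ∀ g ∈ L, ∀ a b : Om, r a b → r (g • a) (g • b)) (a : Om) :
    (∀ v : Subgroup.zpowers c, v ∈ II6_D c r hr h.mem ↔ r ((v : Gam) • a) a) ∧
    Nat.card (II6_D c r hr h.mem) = Nat.card {b : Om // r b a} := by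
  have h1 : ∀ v : Subgroup.zpowers c, v ∈ II6_D c r hr h.mem ↔ r ((v : Gam) • a) a := by
    intro v
    refine ⟨fun hv => hv a, fun hv b => ?_⟩
    obtain ⟨u, hu, hub⟩ := IIT_trans h a b
    have h2 := hr u ((Subgroup.zpowers_le.2 h.mem) hu) _ _ hv
    have h3 : u * (v : Gam) = (v : Gam) * u := by
      obtain ⟨i, rfl⟩ := Subgroup.mem_zpowers_iff.1 hu
      obtain ⟨j, hj⟩ := Subgroup.mem_zpowers_iff.1 v.2
      rw [← hj, ← zpow_add, ← zpow_add, add_comm]
    rwa [← mul_smul, h3, mul_smul, hub] at h2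
  refine ⟨h1, ?_⟩
  refine Nat.card_congr (Equiv.ofBijective
    (fun v : II6_D c r hr h.mem => (⟨((v : Subgroup.zpowers c) : Gam) • a, v.2 a⟩ : {b : Om // r b a})) ⟨?_, ?_⟩)
  · intro u v huv
    have huv' : ((u : Subgroup.zpowers c) : Gam) • a = ((v : Subgroup.zpowers c) : Gam) • a :=
      congrArg Subtype.val huv
    have h2 : (((v : Subgroup.zpowers c) : Gam)⁻¹ * ((u : Subgroup.zpowers c) : Gam)) • a = a := by
      rw [mul_smul, huv', inv_smul_smul]
    have h3 := IIT_reg h ((Subgroup.zpowers c).mul_mem ((Subgroup.zpowers c).inv_mem v.1.2) u.1.2) h2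
    exact Subtype.ext (Subtype.ext (inv_mul_eq_one.1 h3).symm)
  · rintro ⟨b, hb⟩
    obtain ⟨u, hu, hub⟩ := IIT_trans h a b
    refine ⟨⟨⟨u, hu⟩, (h1 ⟨u, hu⟩).2 ?_⟩, ?_⟩
    · change r (u • a) a
      rw [hub]; exact hb
    · exact Subtype.ext hub

end

theorem II6 (hII5 : II5_stmt) : II6_stmt := by
  intro Gam Om _ _ L c h r hr0
  have := h.finG
  have := h.finO
  have := h.faithful
  have hr : ∀ g ∈ L, ∀ a b : Om, r a b → r (g • a) (g • b) := fun g hg a b hab => hr0 ⟨g, hg⟩ a b hab
  -- `r` is invariant under `Gam`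
  have hinv : ∀ g : Gam, ∀ a b : Om, r a b → r (g • a) (g • b) := by
    intro g a b hab
    let r' : Setoid Om := ⟨fun x y => r (g • x) (g • y),
      ⟨fun x => r.refl _, fun hxy => r.symm hxy, fun hxy hyz => r.trans hxy hyz⟩⟩
    have hr' : ∀ v ∈ L, ∀ x y : Om, r' x y → r' (v • x) (v • y) := by
      intro v hv x y hxy
      change r (g • v • x) (g • v • y)
      have h1 : ∀ x : Om, g • v • x = (g * v * g⁻¹) • g • x := by
        intro x; rw [← mul_smul, ← mul_smul]; congr 1; group
      rw [h1, h1]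
      exact hr _ (h.normal.conj_mem v hv g) _ _ hxy
    have hc1 : Nat.card (II6_D c r hr h.mem) = Nat.card {x : Om // r x (g • a)} :=
      (II6_card h r hr (g • a)).2
    have hc2 : Nat.card (II6_D c r' hr' h.mem) = Nat.card {x : Om // r' x a} :=
      (II6_card h r' hr' a).2
    have hc3 : Nat.card {x : Om // r' x a} = Nat.card {x : Om // r x (g • a)} := by
      refine Nat.card_congr ((MulAction.toPerm g).subtypeEquiv fun x => ?_)
      rfl
    have hD : II6_D c r hr h.mem = II6_D c r' hr' h.mem :=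
      II6_uniq _ _ (by rw [hc1, hc2, hc3])
    obtain ⟨u, hu, hub⟩ := IIT_trans h b a
    have h2 : (⟨u, hu⟩ : Subgroup.zpowers c) ∈ II6_D c r hr h.mem := by
      rw [(II6_card h r hr b).1]
      change r (u • b) b
      rw [hub]; exact hab
    rw [hD] at h2
    have h3 : r (g • u • b) (g • b) := h2 b
    rwa [hub] at h3
  by_cases hbot : r = ⊥
  · exact Or.inl hbot
  right
  let E : Subgroup Gam :=
    { carrier := {v | v ∈ L ∧ ∀ a : Om, r (v • a) a}
      one_mem' := ⟨L.one_mem, fun a => by simp⟩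
      mul_mem' := by
        rintro u v ⟨hu1, hu⟩ ⟨hv1, hv⟩
        refine ⟨L.mul_mem hu1 hv1, fun a => ?_⟩
        have := hu (v • a)
        rw [← mul_smul] at this
        exact r.trans this (hv a)
      inv_mem' := by
        rintro u ⟨hu1, hu⟩
        refine ⟨L.inv_mem hu1, fun a => ?_⟩
        have := hu (u⁻¹ • a)
        rw [smul_inv_smul] at this
        exact r.symm this }
  have hEn : E.Normal := by
    refine ⟨?_⟩
    rintro v ⟨hv1, hv⟩ g
    refine ⟨h.normal.conj_mem v hv1 g, fun a => ?_⟩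
    have h1 := hinv g _ _ (hv (g⁻¹ • a))
    rwa [smul_inv_smul, ← mul_smul, ← mul_smul] at h1
  have hEL : E ≤ L := fun v hv => hv.1
  have hmemE : ∀ v ∈ Subgroup.zpowers c, ∀ a : Om, r (v • a) a → v ∈ E := by
    intro v hv a hva
    exact ⟨(Subgroup.zpowers_le.2 h.mem) hv, (((II6_card h r hr a).1 ⟨v, hv⟩).2 hva : _)⟩
  have hEne : E ≠ ⊥ := by
    intro hE0
    apply hbot
    ext a b
    constructor
    · intro hab
      obtain ⟨u, hu, hub⟩ := IIT_trans h b a
      have h1 : u ∈ E := hmemE u hu b (by rw [hub]; exact hab)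
      rw [hE0, Subgroup.mem_bot] at h1
      rw [h1, one_smul] at hub
      exact hub.symm
    · intro hab
      have : a = b := hab
      rw [this]
  have hEeq := hII5 Gam Om L c h E hEn hEL hEne
  ext a b
  refine ⟨fun _ => trivial, fun _ => ?_⟩
  obtain ⟨u, hu, hub⟩ := IIT_trans h b a
  have h1 : u ∈ E := by rw [hEeq]; exact (Subgroup.zpowers_le.2 h.mem) hu
  have := h1.2 b
  rwa [hub] at this

end Pool.Agent.helper75.AU
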