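import Pool.Agent.helper75.AU.SpecR

/-!
# AU: small tools for the modules II*
-/

set_option linter.unusedVariables false

namespace Pool.Agent.helper75.AU

open scoped Classical
open Pool.Agent.helper53.AU MulAction

section
variable {Gam : Type} [Group Gam] [Finite Gam]

theorem IIT_card_rel {H K : Subgroup Gam} (h : H ≤ K) :
    Nat.card H * H.relIndex K = Nat.card K := by
  have := Subgroup.relIndex_mul_relIndex ⊥ H K bot_le h
  rwa [Subgroup.relIndex_bot_left, Subgroup.relIndex_bot_left] at this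

theorem IIT_rel_sup (E H : Subgroup Gam) [E.Normal] : H.relIndex (E ⊔ H) = H.relIndex E := by
  have h1 := IIT_card_rel (le_sup_left : E ≤ E ⊔ H)
  have h2 := IIT_card_rel (le_sup_right : H ≤ E ⊔ H)
  rw [Subgroup.relIndex_sup_left] at h1
  have h3 : Nat.card (E ⊓ H : Subgroup Gam) * E.relIndex H = Nat.card H := by
    have := IIT_card_rel (inf_le_right : E ⊓ H ≤ H)
    rwa [Subgroup.inf_relIndex_right] at this
  have h4 : Nat.card (E ⊓ H : Subgroup Gam) * H.relIndex E = Nat.card E := by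
    have := IIT_card_rel (inf_le_left : E ⊓ H ≤ E)
    rwa [Subgroup.inf_relIndex_left] at this
  have hp : 0 < Nat.card H := Nat.card_pos
  have hp2 : 0 < Nat.card (E ⊓ H : Subgroup Gam) := Nat.card_pos
  have h5 : Nat.card H * H.relIndex (E ⊔ H) = Nat.card H * H.relIndex E := by
    rw [h2, ← h1, ← h4, ← h3]; ring
  exact Nat.eq_of_mul_eq_mul_left hp h5

/-- an element with two coprime powers in a subgroup lies in the subgroup -/
theorem IIT_coprime_mem {A : Subgroup Gam} {v : Gam} {a b : ℕ} (hab : Nat.Coprime a b)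
    (ha : v ^ a ∈ A) (hb : v ^ b ∈ A) : v ∈ A := by
  have h := Nat.gcd_eq_gcd_ab a b
  rw [hab.gcd_eq_one] at h
  have h2 : v = (v ^ a) ^ (a.gcdA b) * (v ^ b) ^ (a.gcdB b) := by
    rw [← zpow_natCast, ← zpow_natCast, ← zpow_mul, ← zpow_mul, ← zpow_add, ← h]
    simp
  rw [h2]
  exact A.mul_mem (A.zpow_mem ha _) (A.zpow_mem hb _)

end

section
variable {Gam Om : Type} [Group Gam] [MulAction Gam Om] {L : Subgroup Gam} {c : Gam}

theorem IIT_reg (h : CtxII Gam Om L c) {a : Gam} (ha : a ∈ Subgroup.zpowers c) {w : Om}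
    (hw : a • w = w) : a = 1 := by
  haveI := h.faithful
  apply FaithfulSMul.eq_of_smul_eq_smul (α := Om)
  intro w'
  obtain ⟨n, hn⟩ := h.tr w w'
  obtain ⟨m, rfl⟩ := Subgroup.mem_zpowers_iff.1 ha
  rw [one_smul, ← hn, ← mul_smul, ← zpow_natCast, ← zpow_add, add_comm, zpow_add, mul_smul, hw]

theorem IIT_card_c (h : CtxII Gam Om L c) : Nat.card (Subgroup.zpowers c) = Nat.card Om := by
  haveI := h.finO
  obtain ⟨w⟩ : Nonempty Om := by
    have := h.one
    by_contra hne
    rw [not_nonempty_iff] at hne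
    simp at this
  refine Nat.card_congr (Equiv.ofBijective (fun a : Subgroup.zpowers c => (a : Gam) • w) ⟨?_, ?_⟩)
  · intro a b hab
    have hab' : (a : Gam) • w = (b : Gam) • w := hab
    have h1 : ((b : Gam)⁻¹ * a) • w = w := by rw [mul_smul, hab', inv_smul_smul]
    have h2 := IIT_reg h ((Subgroup.zpowers c).mul_mem ((Subgroup.zpowers c).inv_mem b.2) a.2) h1
    exact (Subtype.ext (inv_mul_eq_one.1 h2)).symm
  · intro w'
    obtain ⟨n, hn⟩ := h.tr w w'
    exact ⟨⟨c ^ n, Subgroup.npow_mem_zpowers c n⟩, hn⟩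

theorem IIT_trans (h : CtxII Gam Om L c) (w w' : Om) : ∃ v ∈ Subgroup.zpowers c, v • w = w' := by
  obtain ⟨n, hn⟩ := h.tr w w'
  exact ⟨c ^ n, Subgroup.npow_mem_zpowers c n, hn⟩

theorem IIT_index (h : CtxII Gam Om L c) (w : Om) : (stabilizer Gam w).index = Nat.card Om := by
  haveI : IsPretransitive Gam Om := ⟨fun a b => by
    obtain ⟨v, _, hv⟩ := IIT_trans h a b
    exact ⟨v, hv⟩⟩
  exact index_stabilizer_of_transitive Gam w

/-- a normal subgroup of order prime to the degree is trivial -/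
theorem IIT_coprime_bot (h : CtxII Gam Om L c) (E : Subgroup Gam) (hE : E.Normal)
    (hc : Nat.Coprime (Nat.card E) (Nat.card Om)) : E = ⊥ := by
  haveI := h.finG
  haveI := h.faithful
  rw [Subgroup.eq_bot_iff_forall]
  intro e he
  apply FaithfulSMul.eq_of_smul_eq_smul (α := Om)
  intro w
  rw [one_smul]
  have h1 : (stabilizer Gam w).relIndex E ∣ Nat.card E := Subgroup.relIndex_dvd_card _ _
  have h2 : (stabilizer Gam w).relIndex E ∣ Nat.card Om := by
    rw [← IIT_index h w, ← IIT_rel_sup E (stabilizer Gam w)]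
    exact Subgroup.relIndex_dvd_index_of_le le_sup_right
  have h3 : (stabilizer Gam w).relIndex E = 1 := by
    have := Nat.dvd_gcd h1 h2
    rw [hc.gcd_eq_one] at this
    exact Nat.dvd_one.1 this
  exact Subgroup.relIndex_eq_one.1 h3 he

end

end Pool.Agent.helper75.AU
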