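import Pool.Agent.helper87.AU.SpecQ2

/-!
# AU, QF5: leading coefficients of products and conjugates
-/

namespace Pool.Agent.helper53.AU

open scoped Classical IntermediateField

noncomputable section

variable {k F : Type} [Field k] [Field F] [Algebra k F]

theorem QF5_theta_one (hF2 : QF2_stmt) [IsAlgClosed k] (hFF : IsFF k F) (P : Place k F) :
    P.theta (1 : F ≃ₐ[k] F) = 1 :=
  ((hF2 k F hFF P 1 (one_smul _ _)).2.2.2).2 (Or.inl rfl)

theorem QF5_pow (P : Place k F) (f : F) (j : ℕ) (m : ℤ) (h : m = (j : ℤ)) : f ^ j = f ^ m := by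
  rw [h, zpow_natCast]

theorem QF5 (hF1 : QF1_stmt) (hF2 : QF2_stmt) (hF3 : QF3_stmt) (hF4 : QF4_stmt) : QF5_stmt := by
  intro k F _ _ _ _ hFF P
  obtain ⟨ht0, ht1⟩ := P.unif_spec
  refine ⟨?_, ?_⟩
  · intro s s' hs hs' hs1 hs1' hi hj
    have hi' : 1 ≤ P.jump s' := by rw [hj]; exact hi
    obtain ⟨ha0, ha1, -⟩ := hF4 k F hFF P s hs hs1 hi
    obtain ⟨hb0, hb1, -⟩ := hF4 k F hFF P s' hs' hs1' hi'
    have ha := (ha1 (P.lcoef s)).2 rfl
    have hb := (hb1 (P.lcoef s')).2 rfl
    rw [hj] at hb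
    set t := P.unif with ht
    set i := P.jump s with hidef
    have hss : (s * s') • P = P := by rw [mul_smul, hs', hs]
    -- f = s' t - t
    have hf : P.Ge ((i : ℤ) + 1) (s' t - t) := by
      have h1 : P.Ge ((i : ℤ) + 1) (algebraMap k F (P.lcoef s') * t ^ (i + 1)) := by
        have := ((Place.ge_ord P t).pow (i + 1)).const_mul (P.lcoef s')
        rw [ht1] at this
        refine this.mono ?_
        push_cast
        linarith
      have h2 := (hb.mono (by omega : (i : ℤ) + 1 ≤ (i : ℤ) + 2)).add h1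
      simpa using h2
    have hsf := (hF1 k F hFF P s hs hs1).2 _ _ hf
    have hsf' : P.Ge ((i : ℤ) + 2) (s (s' t - t) - (s' t - t)) :=
      hsf.mono (by
        have : (1 : ℤ) ≤ (i : ℤ) := by exact_mod_cast hi
        change (i : ℤ) + 2 ≤ (i : ℤ) + 1 + (i : ℤ)
        omega)
    have key : P.Ge ((i : ℤ) + 2) ((s * s') t - t -
        algebraMap k F (P.lcoef s + P.lcoef s') * t ^ (i + 1)) := by
      have h1 := (hsf'.add hb).add ha
      convert h1 using 1
      rw [AlgEquiv.mul_apply, map_sub, map_add]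
      ring
    refine ⟨fun h0 => ?_, fun h0 => ?_⟩
    · rw [h0, map_zero, zero_mul, sub_zero] at key
      by_cases h1 : s * s' = 1
      · exact Or.inl h1
      right
      obtain ⟨h2, h3⟩ := (hF1 k F hFF P (s * s') hss h1).1 t ⟨ht0, ht1⟩
      have h4 := key.le h2
      rw [h3] at h4
      omega
    · have hm : algebraMap k F (P.lcoef s + P.lcoef s') * t ^ (i + 1) ≠ 0 :=
        mul_ne_zero (by rwa [Ne, map_eq_zero]) (pow_ne_zero _ ht0)
      have hmo : P.ord (algebraMap k F (P.lcoef s + P.lcoef s') * t ^ (i + 1)) = (i : ℤ) + 1 := by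
        rw [P.ord_mul _ _ (by rwa [Ne, map_eq_zero]) (pow_ne_zero _ ht0), P.ord_const _ h0,
          P.ord_pow ht0, ht1]
        push_cast
        ring
      have h1 := Place.ord_add_eq (P := P) hm (g := (s * s') t - t -
        algebraMap k F (P.lcoef s + P.lcoef s') * t ^ (i + 1)) (key.mono (by rw [hmo]; omega))
      rw [add_sub_cancel, hmo] at h1
      have h2 : s * s' ≠ 1 := by
        intro h
        apply h1.1
        rw [h]
        simp
      obtain ⟨h3, h4⟩ := (hF1 k F hFF P (s * s') hss h2).1 t ⟨ht0, ht1⟩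
      have h5 : P.jump (s * s') = i := by
        rw [h1.2] at h4
        omega
      refine ⟨h2, h5, ?_⟩
      have h6 := (hF4 k F hFF P (s * s') hss h2 (by rw [h5]; exact hi)).2.1
        (P.lcoef s + P.lcoef s')
      rw [h5] at h6
      exact (h6.1 key).symm
  · intro c s hc hs hs1 hi
    have hci : c⁻¹ • P = P := by
      conv_lhs => rw [← hc]
      exact inv_smul_smul c P
    have hu : (c * s * c⁻¹) • P = P := by rw [mul_smul, mul_smul, hci, hs, hc]
    have hu1 : c * s * c⁻¹ ≠ 1 := by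
      intro h
      apply hs1
      have : s = c⁻¹ * (c * s * c⁻¹) * c := by group
      rw [this, h]
      group
    have hju : P.jump (c * s * c⁻¹) = P.jump s := by
      have := ((hF3 k F hFF P).2.1 c s hs).2
      rwa [hc] at this
    have hth : P.theta c⁻¹ * P.theta c = 1 := by
      rw [← (hF3 k F hFF P).1 c⁻¹ c hci hc, inv_mul_cancel, QF5_theta_one hF2 hFF P]
    obtain ⟨-, -, h3⟩ := hF4 k F hFF P s hs hs1 hi
    have hu4 := (hF4 k F hFF P _ hu hu1 (by rw [hju]; exact hi)).2.1
      (P.theta c ^ (P.jump s) * P.lcoef s)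
    set t := P.unif with ht
    set i := P.jump s with hidef
    -- τ = c⁻¹ t
    have e1 := (hF2 k F hFF P c⁻¹ hci).2.2.1 1 1 t (by left; simp [← ht])
    have e2 := h3 1 (1 * P.theta c⁻¹ ^ (1 : ℤ)) (c⁻¹ t) e1
    have e3 := (hF2 k F hFF P c hc).2.2.1 (1 + (i : ℤ)) _ _ e2
    rw [hju] at hu4
    rw [eq_comm]
    apply hu4.1
    have e4 : c (s (c⁻¹ t) - c⁻¹ t) = (c * s * c⁻¹) t - t := by
      rw [map_sub]
      congr 1
      exact AlgEquiv.apply_symm_apply c t
    rw [e4] at e3
    have e5 : ((1 : ℤ) : k) * (1 * P.theta c⁻¹ ^ (1 : ℤ)) * P.lcoef s * P.theta c ^ (1 + (i : ℤ)) =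
        P.theta c ^ i * P.lcoef s := by
      have : P.theta c ^ (1 + (i : ℤ)) = P.theta c * P.theta c ^ i := by
        rw [← zpow_natCast, add_comm, zpow_add_one₀ (hF2 k F hFF P c hc).1, mul_comm]
      rw [this, zpow_one, Int.cast_one]
      linear_combination (P.lcoef s * P.theta c ^ i) * hth
    rw [e5] at e3
    rw [QF5_pow P t (i + 1) (1 + (i : ℤ)) (by push_cast; ring)]
    exact e3.mono (by omega)

end

end Pool.Agent.helper53.AU
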