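import Pool.Agent.helper87.AU.SpecQ1

/-!
# AU, QH0: the degree of `dx` is `2 g - 2` for `x` with one pole
-/

namespace Pool.Agent.helper53.AU

open scoped Classical IntermediateField
open Polynomial (aeval)

noncomputable section

theorem QH0_ne {k F : Type} [Field k] [Field F] [Algebra k F] (D : Derivation k F F) {x : F}
    (h : D x ≠ 0) (a : k) : x - algebraMap k F a ≠ 0 := by
  intro h0
  rw [sub_eq_zero] at h0
  apply h
  rw [h0, Derivation.map_algebraMap]

theorem QH0_uniq {k F : Type} [Field k] [Field F] [Algebra k F] (P : Place k F) {x : F} {a b : k}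
    (hxa : x - algebraMap k F a ≠ 0) (hxb : x - algebraMap k F b ≠ 0)
    (ha : 0 < P.ord (x - algebraMap k F a)) (hb : 0 < P.ord (x - algebraMap k F b)) : a = b := by
  by_contra hab
  have h1 : P.Ge 1 (x - algebraMap k F a) := Or.inr ha
  have h2 : P.Ge 1 (x - algebraMap k F b) := Or.inr hb
  have h3 : P.Ge 1 (algebraMap k F (b - a)) := by
    have := h1.sub h2
    rw [map_sub]
    convert this using 1
    ring
  have hne : algebraMap k F (b - a) ≠ 0 := by
    rw [Ne, map_eq_zero]
    exact sub_ne_zero.2 (Ne.symm hab)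
  have h4 := h3.le hne
  rw [P.ord_const _ (sub_ne_zero.2 (Ne.symm hab))] at h4
  omega

theorem QH0 (hV1 : QV1_stmt) (hV4 : QV4_stmt) (hK5 : QK5_stmt) (hD1 : QD1_stmt) (hD6 : QD6_stmt)
    (hA3 : QA3_stmt) : QH0_stmt := by
  intro k F _ _ _ _ hFF g hg P₀ x n u μ hO hn D hD
  have hx0 : x ≠ 0 := by
    rintro rfl
    have := hO.xord
    rw [P₀.ord_zero] at this
    have := hO.pos
    omega
  -- at P₀
  have hP0 := (hK5 k F hFF D hD P₀ P₀.unif P₀.unif_spec).2.2.2 x hx0 (by
    rw [hO.xord]
    push_cast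
    exact neg_ne_zero.2 hn)
  have hDx : D x ≠ 0 := hP0.1
  have hd0 : P₀.dord D x = -(n : ℤ) - 1 := by
    unfold Place.dord
    rw [hP0.2, hO.xord]
    ring
  have hne := fun a => QH0_ne D hDx a
  -- the orders are nonnegative outside P₀
  have hnn : ∀ P : Place k F, P ≠ P₀ → 0 ≤ P.dord D x := by
    intro P hP
    obtain ⟨c, hc⟩ := hV1 k F hFF P x (hO.xreg P hP)
    have h1 := (hK5 k F hFF D hD P P.unif P.unif_spec).2.2.1 1 _ hc
    have h2 : D (x - algebraMap k F c) = D x := by
      rw [map_sub, Derivation.map_algebraMap, sub_zero]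
    rw [h2] at h1
    have h3 := h1.le hDx
    unfold Place.dord
    omega
  -- places above a
  have hfin : ∀ a : k, {P : Place k F | 0 < P.ord (x - algebraMap k F a)}.Finite := by
    intro a
    refine (hV4 k F hFF _ (hne a)).subset ?_
    intro P hP
    exact ne_of_gt hP
  have hneP0 : ∀ (a : k) (P : Place k F), 0 < P.ord (x - algebraMap k F a) → P ≠ P₀ := by
    rintro a P hP rfl
    have h1 : P.Ge (P.ord x + 1) (-algebraMap k F a) := by
      refine ((P.ge_const a).neg).mono ?_
      rw [hO.xord]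
      have := hO.pos
      omega
    have h2 := (Place.ord_add_eq hx0 h1).2
    rw [← sub_eq_add_neg, hO.xord] at h2
    omega
  obtain ⟨Δ, hΔ0, hΔd, hΔn⟩ := hD1 k F hFF P₀ x n u μ hO hn
  have h6 := hD6 k F hFF P₀ x n u μ hO hn D hD Δ hΔ0 hΔd
  have h3 := hA3 k F hFF g hg P₀ x n u μ hO
  let T : k → Finset (Place k F) := fun a => (hfin a).toFinset
  have hT : ∀ a P, P ∈ T a ↔ 0 < P.ord (x - algebraMap k F a) := by
    intro a P
    simp [T]
  have h6' : ∀ a : k, (Polynomial.rootMultiplicity a Δ : ℤ) = ∑ P ∈ T a, P.dord D x := by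
    intro a
    rw [h6 a, finsum_eq_sum_of_support_subset (s := T a)]
    · refine Finset.sum_congr rfl fun P hP => ?_
      rw [if_pos ((hT a P).1 hP)]
    · intro P hP
      rw [Function.mem_support] at hP
      rw [Finset.mem_coe, hT]
      by_contra hcon
      rw [if_neg hcon] at hP
      exact hP rfl
  let S : Finset (Place k F) := Δ.roots.toFinset.biUnion T
  have hsupp : (Function.support fun P : Place k F => P.dord D x) ⊆ ((insert P₀ S : Finset _) : Set (Place k F)) := by
    intro P hP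
    rw [Function.mem_support] at hP
    rw [Finset.mem_coe, Finset.mem_insert]
    by_cases hPP : P = P₀
    · exact Or.inl hPP
    right
    obtain ⟨a, ha⟩ := hV1 k F hFF P x (hO.xreg P hPP)
    have ha' : 0 < P.ord (x - algebraMap k F a) := by
      have := ha.le (hne a)
      omega
    have hPT : P ∈ T a := (hT a P).2 ha'
    have h7 := h6' a
    have h8 : 0 < ∑ P ∈ T a, P.dord D x := by
      refine Finset.sum_pos' (fun Q hQ => hnn Q (hneP0 a Q ((hT a Q).1 hQ))) ⟨P, hPT, ?_⟩
      exact lt_of_le_of_ne (hnn P hPP) (Ne.symm hP)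
    rw [← h7] at h8
    have h9 : Polynomial.rootMultiplicity a Δ ≠ 0 := by
      intro h0
      rw [h0] at h8
      simp at h8
    rw [Finset.mem_biUnion]
    refine ⟨a, ?_, hPT⟩
    rw [Multiset.mem_toFinset, ← Multiset.count_ne_zero, Polynomial.count_roots]
    exact h9
  refine ⟨hDx, (Finset.finite_toSet _).subset hsupp, ?_⟩
  rw [finsum_eq_sum_of_support_subset _ hsupp]
  have hP0S : P₀ ∉ S := by
    intro h
    obtain ⟨a, _, ha⟩ := Finset.mem_biUnion.1 h
    exact hneP0 a P₀ ((hT a P₀).1 ha) rfl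
  rw [Finset.sum_insert hP0S, hd0]
  have hdisj : (Δ.roots.toFinset : Set k).PairwiseDisjoint T := by
    intro a _ b _ hab
    rw [Function.onFun, Finset.disjoint_left]
    intro P hPa hPb
    exact hab (QH0_uniq P (hne a) (hne b) ((hT a P).1 hPa) ((hT b P).1 hPb))
  have hsum : ∑ P ∈ S, P.dord D x = (Δ.natDegree : ℤ) := by
    rw [Finset.sum_biUnion hdisj]
    rw [Finset.sum_congr rfl fun a _ => (h6' a).symm]
    rw [← Nat.cast_sum]
    congr 1
    have h10 : Multiset.card Δ.roots = Δ.natDegree :=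
      (Polynomial.splits_iff_card_roots).1 (IsAlgClosed.splits Δ)
    rw [← h10, ← Multiset.toFinset_sum_count_eq]
    exact Finset.sum_congr rfl fun a _ => (Polynomial.count_roots Δ).symm
  rw [hsum]
  have hn0 : (n : ℤ) ≠ 0 := by
    have := hO.pos
    omega
  have h11 : (Δ.natDegree : ℤ) = 2 * (g : ℤ) + n - 1 := by
    apply mul_left_cancel₀ hn0
    rw [hΔn, h3]
  rw [h11]
  ring

end

end Pool.Agent.helper53.AU
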