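import Pool.Agent.helper2.AU.SpecX

/-!
# AU, XD: extension of a derivation from the fixed field
-/

namespace Pool.Agent.helper53.AU

open scoped Classical IntermediateField TensorProduct

noncomputable section

/-- derivations extend along formally etale extensions -/
theorem XD_ext {k E F : Type} [Field k] [Field E] [Field F] [Algebra k E] [Algebra k F] [Algebra E F]
    [IsScalarTower k E F] [Algebra.FormallyEtale E F] (D' : Derivation k E E) :
    ∃ D : Derivation k F F, ∀ u : E, D (algebraMap E F u) = algebraMap E F (D' u) := by
  let l0 : KaehlerDifferential k E →ₗ[E] F :=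
    (Algebra.linearMap E F).comp D'.liftKaehlerDifferential
  let l1 : F ⊗[E] (KaehlerDifferential k E) →ₗ[F] F := l0.liftBaseChange F
  let l2 : KaehlerDifferential k F →ₗ[F] F :=
    l1.comp (KaehlerDifferential.tensorKaehlerEquivOfFormallyEtale k E F).symm.toLinearMap
  refine ⟨l2.compDer (KaehlerDifferential.D k F), fun u => ?_⟩
  change l1 ((KaehlerDifferential.tensorKaehlerEquivOfFormallyEtale k E F).symm
    (KaehlerDifferential.D k F (algebraMap E F u))) = _
  rw [KaehlerDifferential.tensorKaehlerEquivOfFormallyEtale_symm_D_algebraMap]
  change (l0.liftBaseChange F) (1 ⊗ₜ[E] KaehlerDifferential.D k E u) = _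
  rw [LinearMap.liftBaseChange_tmul, one_smul]
  change Algebra.linearMap E F (D'.liftKaehlerDifferential (KaehlerDifferential.D k E u)) = _
  rw [Derivation.liftKaehlerDifferential_comp_D]
  rfl

theorem XD : XD_stmt := by
  intro k F _ _ _ H _ D'
  have h1 : FiniteDimensional (IntermediateField.fixedField H) F :=
    inferInstanceAs (FiniteDimensional (FixedPoints.subfield H F) F)
  have h2 : Algebra.IsSeparable (IntermediateField.fixedField H) F :=
    inferInstanceAs (Algebra.IsSeparable (FixedPoints.subfield H F) F)
  have h3 : Algebra.FormallyEtale (IntermediateField.fixedField H) F :=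
    Algebra.FormallyEtale.of_isSeparable _ _
  exact XD_ext D'

end

end Pool.Agent.helper53.AU
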